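import Pool.Agent.Lib.MP_fd31a8_an.Main

/-!
# MP_fd31a8_an, Q1: sharp dimension of the contact set of Cheeger sets of `C^{1,α}` domains

For every `d ≥ 3` and every `0 < α < 1` there are a bounded open set `Ω` of `ℝ^d` with boundary of
class `C^{1,α}` and a Cheeger set `E` of `Ω`, taken in the representative whose topological
boundary is the closure of its reduced boundary, whose contact set has Hausdorff dimension exactly
`d - 2 + α`.
-/

open MeasureTheory Set MP_fd31a8_an

theorem Pool.Agent.Results.MP_fd31a8_an.ContactDimension.result :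
    ∀ d : ℕ, 3 ≤ d → ∀ α : ℝ, 0 < α → α < 1 →
      ∃ Ω E : Set (Sp d), IsOpen Ω ∧ Bornology.IsBounded Ω ∧
        HasC1HolderBoundary α.toNNReal Ω ∧ IsCheegerSet Ω E ∧ frontier E = essBoundary E ∧
        dimH (frontier E ∩ frontier Ω) = ENNReal.ofReal ((d : ℝ) - 2 + α) := by
  intro d hd α h0 h1
  obtain ⟨Ω, hΩ, hb, hC, ⟨E, hE, hfr, hdim⟩, -⟩ := MP_fd31a8_an.main d (by omega) α h0 h1
  exact ⟨Ω, E, hΩ, hb, hC, hE, hfr, hdim⟩
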